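import Pool.Agent.TH585.SV.Fib9
import Pool.Agent.V5SU.SymForm

/-!
# Sections of symmetric powers of `Ω^d` from linear systems with highly divisible members

Let `X` be a projective manifold of any dimension and let `|V|` be a linear system on `X` of dimension
`n` (it may have fixed components) whose rational map `X ⇢ ℙⁿ` has an image `Y` of dimension `d`,
`1 ≤ d ≤ n`; the image may be any nondegenerate variety and the fibres are arbitrary. Let `D i`
(`i < q`) be finitely many members of `|V|` which span `V`, in arbitrary position, `c` the number of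
the components of this configuration (`V` is the direct sum of `c`, but not of `c + 1`, nonzero
subspaces such that each `D i` belongs to one of them, the component of `D i`). Suppose that for every
prime divisor `P` of `X` at which some `D i` has more than the generic multiplicity, the
multiplicities of `P` in two members `D i`, `D i'` of one component of the configuration differ by
at least `s`, where `s ≥ (n + 3 - c) (n - d + 1) (n - d + 2) / 2` (if `c = 1` and there are
at least `n + 3` different members then `n + 1` can be taken instead of `n + 2`).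

Then `H⁰ (X, S^m Ω^d) ≠ 0` for some `m ≥ 1`, so that `Ω^d` is pseudoeffective and the question (Q1) has
a positive answer for `(X, d)`. If the inequality for `s` is strict then for some `m ≥ 1` there are
`d + 2 - c` sections of `S^m Ω^d` which are multiples of each other with `d + 1 - c` algebraically
independent ratios.

The sections are powers of generalised Wronskians of `V`, divided by products of members; the estimates
are those of the starting files (`Pool.Agent.TH585.SV`, `Frame.est`, `Frame.est_kod`, used
there for `K_X` and for tensor differentials); here they give sections of `S^m Ω^d`.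

The function-field language of the starting repository is used. `K` is the function field of `X`; the
prime divisors of `X` are places `P` of `K` (`Place`, `Divisorial`), `P.ord` is the order along `P`,
and `X` is given by the set of its prime divisors. If `a` is the minimum of the orders at
`P` of the members of `V` then the multiplicity of `P` in the moving part of the divisor of the
system which is given by `f ∈ V` is `P.ord f - a`. A rational section of `(Ω^q) ^ ⊗ m` is a
`K`-multilinear function `ω` of `m` blocks of `q` rational vector fields (derivations of `K`), which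
is alternating in the vector fields of each block; it is a section of `S^m Ω^q` if it is invariant
under the permutations of the blocks. It is holomorphic if its values on vector fields which are regular
at `P` are regular at `P`, for all prime divisors `P` of `X`.
-/

set_option autoImplicit false

open Matrix FF Pool.Agent.W602.GT Pool.Agent.W603.LV Pool.Agent.TH585.SV Pool.Agent.V5SU.SF

namespace Pool.Agent.Results.MP_bf99ce_ag.LinearSystemForms

/-- `ω` is a rational section of `S^m Ω^q`: a multilinear function of `m` blocks of `q` rational vector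
fields, alternating in each block and invariant under the permutations of the blocks. -/
def IsSymForm {K : Type} [Field K] [Algebra ℂ K] {m q : ℕ}
    (ω : MultilinearMap K (fun _ : Fin m × Fin q => Derivation ℂ K K) K) : Prop :=
  (∀ (D : Fin m × Fin q → Derivation ℂ K K) (a : Fin m) (i j : Fin q), i ≠ j →
    D (a, i) = D (a, j) → ω D = 0) ∧
  ∀ (D : Fin m × Fin q → Derivation ℂ K K) (σ : Equiv.Perm (Fin m)),
    ω (fun z => D (σ z.1, z.2)) = ω D

/-- `ω` is a holomorphic section of `S^m Ω^q` on `X`, a smooth projective variety of dimension `M` which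
is given by the set of its prime divisors. -/
def IsSection {K : Type} [Field K] [Algebra ℂ K] (M : ℕ) (X : Set (Place ℂ K)) {m q : ℕ}
    (ω : MultilinearMap K (fun _ : Fin m × Fin q => Derivation ℂ K K) K) : Prop :=
  IsSymForm ω ∧ ∀ P ∈ X, Divisorial M P → ∀ D : Fin m × Fin q → Derivation ℂ K K,
    (∀ z, DerReg P (D z)) → P.Reg (ω D)

/-- The function field of the image of the rational map which is given by the linear system `V`: the
field generated by the quotients of the members. -/
noncomputable def ImageField {K : Type} [Field K] [Algebra ℂ K] (V : Submodule ℂ K) :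
    IntermediateField ℂ K :=
  IntermediateField.adjoin ℂ {y : K | ∃ f ∈ V, ∃ g ∈ V, y = f / g}

/-- `γ` is a decomposition of the configuration of the members `φ i` of `V` into `c` components: `V`
has a basis of `n + 1` elements `b a`, divided into `c` nonempty groups (`b a` is in the group `g a`),
such that `φ i` is in the subspace spanned by the elements of the group `γ i`. -/
def Decomposition {K : Type} [Field K] [Algebra ℂ K] (n : ℕ) {q c : ℕ} (V : Submodule ℂ K)
    (φ : Fin q → K) (γ : Fin q → Fin c) : Prop :=
  ∃ (b : Fin (n + 1) → K) (g : Fin (n + 1) → Fin c), LinearIndependent ℂ b ∧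
    Submodule.span ℂ (Set.range b) = V ∧ Function.Surjective g ∧
    ∀ i, φ i ∈ Submodule.span ℂ (b '' {a | g a = γ i})

/-- There are `r` members `φ i` of which no two are proportional. -/
def Different {K : Type} [Field K] [Algebra ℂ K] (r : ℕ) {q : ℕ} (φ : Fin q → K) : Prop :=
  ∃ τ : Fin r → Fin q, ∀ i j, i ≠ j → ∀ t : ℂ, φ (τ i) ≠ t • φ (τ j)

/-- The condition on the multiplicities: if at the prime divisor `P` of `X` the order of some `φ i` is
not the minimum `a` of the orders of the members of `V`, then for some members `D i`, `D i'` of the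
same component of the configuration the difference of the multiplicities of `P` is at least `s`. -/
def Multiplicities {K : Type} [Field K] [Algebra ℂ K] {q c : ℕ} (V : Submodule ℂ K)
    (φ : Fin q → K) (γ : Fin q → Fin c) (M : ℕ) (X : Set (Place ℂ K)) (s : ℝ) : Prop :=
  ∀ P ∈ X, Divisorial M P → ∀ a : ℤ, (∀ f ∈ V, f = 0 ∨ a ≤ P.ord f) →
    (∃ f ∈ V, f ≠ 0 ∧ P.ord f = a) → (∃ i, P.ord (φ i) ≠ a) →
    ∃ i i', γ i' = γ i ∧ s ≤ ((P.ord (φ i) - P.ord (φ i') : ℤ) : ℝ)

/-- Let `X` be a smooth projective variety of dimension `d + e`, `V` a linear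
system of dimension `n` on `X` whose rational map has an image `Y` of dimension `d`, `1 ≤ d ≤ n`;
`φ i` nonzero members which span `V`, `γ` their decomposition into `c` components (there is no
decomposition into `c + 1` components), `R = n + 3 - c`, or `R = n + 1` if `c = 1` and there are
`n + 3` different members, and `s ≥ R (n - d + 1) (n - d + 2) / 2` a number for which the condition on
the multiplicities holds. Then for some `m ≥ 1` there is a nonzero section of `S^m Ω^d`. If the
inequality for `s` is strict and `κ + c = d + 1` then for some `m ≥ 1` there are `κ + 1` holomorphic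
sections `ω i` of `S^m Ω^d` on `X`, where `ω 0 ≠ 0` and the others are the products of `ω 0` with `κ`
algebraically independent functions. -/
theorem result (d e n q c : ℕ) (hd : 1 ≤ d) (hdn : d ≤ n) (K : Type) [Field K] [Algebra ℂ K]
    (hK : Algebra.trdeg ℂ K = (d + e : ℕ)) (X : Set (Place ℂ K))
    (V : Submodule ℂ K) (hV : Algebra.trdeg ℂ (ImageField V) = d)
    (φ : Fin q → K) (hφ0 : ∀ i, φ i ≠ 0) (hφ : Submodule.span ℂ (Set.range φ) = V)
    (γ : Fin q → Fin c) (hγ : Decomposition n V φ γ)
    (hc : ∀ γ' : Fin q → Fin (c + 1), ¬ Decomposition n V φ γ')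
    (R : ℕ) (hR : R + c = n + 3 ∨ (c = 1 ∧ Different (n + 3) φ ∧ R = n + 1))
    (s : ℝ) (hs : (R : ℝ) * (((n : ℝ) - d + 1) * ((n : ℝ) - d + 2)) ≤ 2 * s)
    (h : Multiplicities V φ γ (d + e) X s) :
    (∃ m : ℕ, 1 ≤ m ∧ ∃ ω : MultilinearMap K (fun _ : Fin m × Fin d => Derivation ℂ K K) K,
      IsSection (d + e) X ω ∧ ω ≠ 0) ∧
    ((R : ℝ) * (((n : ℝ) - d + 1) * ((n : ℝ) - d + 2)) < 2 * s → ∀ κ : ℕ, κ + c = d + 1 →
      ∃ m : ℕ, 1 ≤ m ∧
        ∃ (ω : Fin (κ + 1) → MultilinearMap K (fun _ : Fin m × Fin d => Derivation ℂ K K) K)
          (w : Fin κ → K), (∀ i, IsSection (d + e) X (ω i)) ∧ ω 0 ≠ 0 ∧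
          AlgebraicIndependent ℂ w ∧ ∀ i, ω i.succ = w i • ω 0) := by
  obtain ⟨k, rfl⟩ := Nat.exists_eq_add_of_le hdn
  have e1 : ((d + k : ℕ) : ℝ) - d = (k : ℝ) := by
    push_cast
    ring
  rw [e1] at hs ⊢
  obtain ⟨y, ℓ, hliy, hℓ, hℓ0, hcomp, hspl, hspan, hB, hmem, hfm⟩ := lin_data2 hφ0 hφ hγ hc hR
  have hyV : ∀ j, y j ∈ V := fun j => by
    have := hmem (LinearMap.proj j)
    rwa [Pool.Agent.W168.CG.PGR.lf_proj] at this
  obtain ⟨x, σ, u, Dt, Du, hli, hσ, F, hx, hxy, hLHz, xL, hxL, hbas⟩ :=
    exists_frame_lin hliy hyV hfm hV hK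
  have hh := lin_high2 (N := d + e) (X := X) (δ := fun _ => 0) (s := s) hφ0 hℓ hmem hfm
    (hliy.ne_zero 0) hxy (fun P hPX hPd a h1 h2 h3 => by
      obtain ⟨i, i', h4, h5⟩ := h P hPX hPd a h1 h2 h3
      exact ⟨i, i', h4, by rw [sub_zero, mul_one]; exact h5⟩)
  have hind : AlgebraicIndependent ℂ (fun j : Fin d => x (σ j.succ)) := by
    have h1 := hbas.1.map' (f := (rf V).val) Subtype.val_injective
    have h2 : (fun j : Fin d => (rf V).val (xL (σ j.succ))) = fun j : Fin d => x (σ j.succ) := by
      funext j
      exact hxL _
    have h3 : ((rf V).val ∘ fun j : Fin d => xL (σ j.succ)) = fun j : Fin d => x (σ j.succ) := h2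
    rwa [h3] at h1
  have hform : ∀ (f : K) (m : ℕ),
      IsSymForm (sec (fun j : Fin d => x (σ j.succ)) f m) := fun f m =>
    ⟨fun D a i j hij hD => sec_alt _ _ _ D a hij hD, fun D σ' => sec_symm _ _ _ D σ'⟩
  have hne : ∀ (f : K) (m : ℕ), f ≠ 0 → sec (fun j : Fin d => x (σ j.succ)) f m ≠ 0 := by
    intro f m hf h0
    obtain ⟨D, hD⟩ := exists_eval hind m
    apply hf
    rw [← hD f, h0]
    rfl
  constructor
  · obtain ⟨M, hM, f, hf, hest⟩ := F.est (by omega) hℓ0 hcomp hspl hspan hB hli rfl σ hσ hx X
      (fun _ => 0) (fun _ _ => le_rfl) hs hh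
    refine ⟨M, hM, sec (fun j : Fin d => x (σ j.succ)) f M, ⟨hform f M, fun P hP hPd D hD =>
      sec_reg hM (fun E hE => ?_) D hD⟩, hne f M hf⟩
    obtain ⟨c', h3, h4⟩ := hest P hP hPd E hE
    rw [mul_zero, neg_zero] at h4
    exact h3.mono (by exact_mod_cast h4)
  · intro hs' κ hκ
    obtain ⟨M, hM, f, hf, w, hw0, hw, hwL, hest⟩ := F.est_kod (by omega) hℓ0 hcomp hspl hspan hB
      hli rfl σ hσ hx hxL hbas X (fun _ => 0) (fun _ _ => le_rfl) hs' hh hκ
    refine ⟨M, hM, fun j => sec (fun j : Fin d => x (σ j.succ)) (f * w j) M,
      fun i => w i.succ, fun j => ⟨hform _ M, fun P hP hPd D hD =>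
        sec_reg hM (fun E hE => ?_) D hD⟩, hne _ M (by rw [hw0, mul_one]; exact hf), hw,
      fun i => ?_⟩
    · obtain ⟨c', h3, h4⟩ := hest P hP hPd E hE j
      rw [mul_zero, neg_zero] at h4
      exact h3.mono (by exact_mod_cast h4)
    · refine MultilinearMap.ext fun D => ?_
      rw [MultilinearMap.smul_apply, sec_apply, sec_apply, smul_eq_mul, hw0, mul_one]
      ring

end Pool.Agent.Results.MP_bf99ce_ag.LinearSystemForms
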