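import Pool.Agent.V1157.KL.Base
import Pool.Agent.V5SU.SymForm

/-!
# Sections of symmetric powers of `Ω^p` and maps to varieties of log general type

Let `V` be any variety of dimension `p ≥ 1` with the function field `K0`, `y 0, …, y n` nonzero
rational functions on `V` whose ratios define a generically finite map of `V` to projective space,
and `B` any set of prime divisors over `V`, such that the complement of `B` and of the zeros and poles
of the ratios `y i / y j` is of log general type; there is no condition on the singularities of these
divisors, and `V` itself may be rational, for instance `V = ℙ^p`. There are numbers `μ, m ≥ 1`, which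
depend only on these data, with the following property. Let `X` be a projective manifold of any
dimension with a dominant rational map `X ⇢ V`; the fibres are arbitrary. Suppose that for each prime
divisor `P` of `X` which does not dominate `V`

* either two of the orders of the functions `y i` along `P` differ by at least `μ`,
* or all `y i` have the same order along `P`, and the ramification index of `P` over `V` is at least
  `2` if `P` lies over a prime divisor in `B`.

Then `H⁰ (X, S^m Ω^p) ≠ 0`; moreover there are `p + 1` sections of `S^m Ω^p`, which are multiples of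
each other with algebraically independent ratios. So the question (Q1) has a positive answer for
`(X, q)`, `q = p = dim V` (the bundle `Ω^p` is pseudoeffective and has such sections); for
`dim X = dim V` this is nonvanishing for `K_X`, and `X` is of general type.

The function-field language of the starting repository is used. `K` is the function field of `X`; the
prime divisors of `X` are places `P` of `K` (`Place`, `Divisorial`), `P.ord` is the order along `P`,
and `X` is given by the set of its prime divisors. A rational section of `(Ω^q) ^ ⊗ m` is a
`K`-multilinear function `ω` of `m` blocks of `q` rational vector fields (derivations of `K`), which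
is alternating in the vector fields of each block; it is a section of `S^m Ω^q` if it is invariant
under the permutations of the blocks. It is holomorphic if its values on vector fields which are regular
at `P` are regular at `P`, for all prime divisors `P` of `X`. `LogGeneralType ℂ K0 p H`: `V` has
dimension `p`, and there are `N ≥ 1` and `p + 1` sections of `N (K + D)`, `D` the union of the prime
divisors with the property `H`, whose ratios are algebraically independent.

Proof: the sections are the pull backs of sections of `N (K + D)` on `V`, multiplied with a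
rational function of bounded pole order which vanishes to high order where the `y i` have different
orders (`Pool.Agent.V1157.KL.base_forms`).
-/

set_option autoImplicit false

open Matrix FF Pool.Agent.W602.GT Pool.Agent.W603.LV Pool.Agent.TH143.GT Pool.Agent.Y220.OG
open Pool.Agent.V1157.KL Pool.Agent.V5SU.SF

namespace Pool.Agent.Results.MP_bf99ce_ag.LogGeneralTypeForms

/-- `ω` is a rational section of `S^m Ω^q`: a multilinear function of `m` blocks of `q` rational vector
fields, alternating in each block and invariant under the permutations of the blocks. -/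
def IsSymForm {K : Type} [Field K] [Algebra ℂ K] {m q : ℕ}
    (ω : MultilinearMap K (fun _ : Fin m × Fin q => Derivation ℂ K K) K) : Prop :=
  (∀ (D : Fin m × Fin q → Derivation ℂ K K) (a : Fin m) (i j : Fin q), i ≠ j →
    D (a, i) = D (a, j) → ω D = 0) ∧
  ∀ (D : Fin m × Fin q → Derivation ℂ K K) (σ : Equiv.Perm (Fin m)),
    ω (fun z => D (σ z.1, z.2)) = ω D

/-- `ω` is a holomorphic section of `S^m Ω^q` on `X`, a smooth projective variety of dimension `M` which
is given by the set of its prime divisors. -/
def IsSection {K : Type} [Field K] [Algebra ℂ K] (M : ℕ) (X : Set (Place ℂ K)) {m q : ℕ}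
    (ω : MultilinearMap K (fun _ : Fin m × Fin q => Derivation ℂ K K) K) : Prop :=
  IsSymForm ω ∧ ∀ P ∈ X, Divisorial M P → ∀ D : Fin m × Fin q → Derivation ℂ K K,
    (∀ z, DerReg P (D z)) → P.Reg (ω D)

/-- The prime divisors `P` of `X` dominate `V` (with the function field `K0`), or two of the orders of the
`y i` along `P` differ by at least `μ`, or all orders of the `y i` along `P` are equal, and the
ramification index `e` of `P` over a place `P0` in `B` is at least `2`. -/
def HighOver (K0 : Type) [Field K0] [Algebra ℂ K0] {K : Type} [Field K] [Algebra ℂ K] [Algebra K0 K]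
    {n : ℕ} (y : Fin (n + 1) → K0) (B : Place ℂ K0 → Prop) (μ M : ℕ) (X : Set (Place ℂ K)) : Prop :=
  ∀ P ∈ X, Divisorial M P → (∀ g : K0, P.ord (algebraMap K0 K g) = 0) ∨
    (∃ i j, P.ord (algebraMap K0 K (y i)) + μ ≤ P.ord (algebraMap K0 K (y j))) ∨
    ((∀ i, P.ord (algebraMap K0 K (y i)) = P.ord (algebraMap K0 K (y 0))) ∧
      ∀ (P0 : Place ℂ K0) (e : ℕ), (∀ z : K0, P.ord (algebraMap K0 K z) = e * P0.ord z) → B P0 →
        2 ≤ e)

/-- Let `V` (the function field `K0`, of transcendence degree `p ≥ 1`), `y` and `B` be such that the
complement of `B` and of the zeros and poles of the ratios `y i / y j` is of log general type. There are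
`μ, m ≥ 1` such that for every smooth projective variety `X` with a dominant rational map
`X ⇢ V` and the condition `HighOver` on the multiplicities there are `p + 1` holomorphic sections
`ω i` of `S^m Ω^p` on `X`, where `ω 0 ≠ 0` and the others are the products of `ω 0` with `p`
algebraically independent functions. -/
theorem result {K0 : Type} [Field K0] [Algebra ℂ K0] [Algebra.EssFiniteType ℂ K0] {n p : ℕ}
    (y : Fin (n + 1) → K0) (B : Place ℂ K0 → Prop) (hy : ∀ i, y i ≠ 0)
    (halg : ∀ z : K0, IsAlgebraic (IntermediateField.adjoin ℂ (Set.range fun i => y i / y 0)) z)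
    (hgt : LogGeneralType ℂ K0 p (fun P => (∃ i, P.ord (y i) ≠ P.ord (y 0)) ∨ B P)) :
    ∃ μ m : ℕ, 1 ≤ μ ∧ 1 ≤ m ∧ ∀ (K : Type) [Field K] [Algebra ℂ K] [Algebra K0 K]
      [IsScalarTower ℂ K0 K] (M : ℕ), Algebra.trdeg ℂ K = M → ∀ X : Set (Place ℂ K),
      HighOver K0 y B μ M X →
      ∃ (ω : Fin (p + 1) → MultilinearMap K (fun _ : Fin m × Fin p => Derivation ℂ K K) K)
        (h : Fin p → K), (∀ i, IsSection M X (ω i)) ∧ ω 0 ≠ 0 ∧ AlgebraicIndependent ℂ h ∧
        ∀ i, ω i.succ = h i • ω 0 := by
  obtain ⟨t, W, g, ht, hW, hg0, hgi, hest⟩ := base_forms K0 n p y B hy halg hgt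
  refine ⟨2 * W, W, by omega, by omega, fun K _ _ _ _ M hM X hX => ?_⟩
  have hinj : Function.Injective (algebraMap K0 K) := (algebraMap K0 K).injective
  have hx : AlgebraicIndependent ℂ (fun b => algebraMap K0 K (t b)) :=
    ht.1.map' (f := IsScalarTower.toAlgHom ℂ K0 K) hinj
  have hh : AlgebraicIndependent ℂ (fun i : Fin p => algebraMap K0 K (g i.succ / g 0)) :=
    hgi.map' (f := IsScalarTower.toAlgHom ℂ K0 K) hinj
  have hf : algebraMap K0 K (g 0) ≠ 0 := fun h => hg0 (hinj (h.trans (map_zero _).symm))
  refine ⟨fun j => sec (fun b => algebraMap K0 K (t b)) (algebraMap K0 K (g j)) W,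
    fun i => algebraMap K0 K (g i.succ / g 0), fun j => ⟨⟨?_, ?_⟩, ?_⟩, ?_, hh, fun i => ?_⟩
  · exact fun D a i j hij hD => sec_alt _ _ _ D a hij hD
  · exact fun D σ => sec_symm _ _ _ D σ
  · intro P hP hPd D hD
    refine sec_reg hW (fun E hE => ?_) D hD
    obtain ⟨c', hc', hc0⟩ := hest K M hM P hPd j E hE 0 le_rfl (by
      rcases hX P hP hPd with h1 | ⟨i, j, h1⟩ | ⟨h1, h2⟩
      · exact Or.inl h1
      · refine Or.inr (Or.inr ⟨i, j, ?_⟩)
        rw [sub_zero, mul_one]
        exact_mod_cast h1
      · refine Or.inr (Or.inl ⟨h1, fun P0 e hov hB => ?_⟩)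
        rw [sub_zero, mul_one]
        exact_mod_cast h2 P0 e hov hB)
    rw [mul_zero, neg_zero] at hc0
    have hc1 : (0 : ℤ) ≤ c' := by exact_mod_cast hc0
    exact hc'.mono hc1
  · obtain ⟨D, hD⟩ := exists_eval hx W
    intro h0
    apply hf
    rw [← hD (algebraMap K0 K (g 0))]
    change sec (fun b => algebraMap K0 K (t b)) (algebraMap K0 K (g 0)) W = 0 at h0
    rw [h0]
    rfl
  · refine MultilinearMap.ext fun D => ?_
    rw [MultilinearMap.smul_apply, sec_apply, sec_apply, smul_eq_mul, ← mul_assoc, ← map_mul,
      div_mul_cancel₀ _ hg0]

end Pool.Agent.Results.MP_bf99ce_ag.LogGeneralTypeForms
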